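import Pool.Agent.Helper78.AO.Goals

/-! Packet AO-RKLSW: `Rk0Stmt` and `LswStmt`. -/

namespace Pool.Agent.Helper83.AO

open Pool.Agent.Helper78.AO

theorem okl_zero (A : Machine) (x : List Bool) (t : ℕ) (h : ℕ → ℕ) (l : List (ℕ × Bool)) :
    okl A x 0 t h l = true := by
  simp [okl]

theorem rk0 : Rk0Stmt := by
  intro A x c t h b n
  induction n with
  | zero => intro i M; rfl
  | succ n ih =>
    intro i M
    rw [runK, run, okl_zero]
    simp only [Bool.true_eq_false, if_false, ih]

theorem length_lit (A : Machine) (x : List Bool) (i : ℕ) (M : Mem) (a : List Bool) :
    (lit A x i M a).length = a.length := by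
  simp [lit]

theorem length_litm (A : Machine) (x : List Bool) (M : Mem) :
    (litm A x M).length = msize M := by
  unfold litm msize
  rw [List.length_flatMap]
  simp only [length_lit]
  congr 1
  apply List.ext_getElem
  · simp
  · intro k h1 h2
    have hk : k < M.length := by simpa using h2
    simp [List.getD_eq_getElem?_getD, List.getElem?_eq_getElem hk]

theorem length_strs (D : ℕ) : ∀ a ∈ strs D, a.length ≤ D := by
  induction D with
  | zero => intro a ha; simp [strs] at ha; simp [ha]
  | succ D ih =>
    intro a ha
    rw [strs] at ha
    rcases List.mem_cons.1 ha with rfl | ha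
    · simp
    · rcases List.mem_flatMap.1 ha with ⟨a', ha', h⟩
      have := ih a' ha'
      simp only [List.mem_cons, List.not_mem_nil, or_false] at h
      rcases h with rfl | rfl <;> simp <;> omega

theorem lsw : LswStmt := by
  intro A x c n
  induction n with
  | zero =>
    intro i M hM e he
    simp only [lst, List.mem_cons, List.not_mem_nil, or_false] at he
    subst he
    rw [length_litm]
    omega
  | succ n ih =>
    intro i M hM e he
    rw [lst, List.mem_append] at he
    rcases he with he | he
    · rcases List.mem_flatMap.1 he with ⟨a, ha, h⟩
      have hl := length_strs _ a ha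
      have hlen : (litm A x M ++ lit A x i M a).length ≤ 2 * bd c x := by
        rw [List.length_append, length_litm, length_lit]
        omega
      by_cases h0 : pth A x c i M a = false
      · simp [h0] at h
      rw [if_neg h0] at h
      by_cases h1 : A.act (x, i, M, a) = 1
      · rw [if_pos h1] at h
        simp only [List.mem_cons, List.not_mem_nil, or_false] at h
        subst h
        exact hlen
      rw [if_neg h1] at h
      by_cases h2 : A.act (x, i, M, a) = 2
      · rw [if_pos h2] at h
        simp only [List.mem_cons, List.not_mem_nil, or_false] at h
        subst h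
        exact hlen
      rw [if_neg h2] at h
      by_cases h3 : A.act (x, i, M, a) = 3 ∧ msize M + a.length ≤ bd c x
      · rw [if_pos h3] at h
        refine ih (i + 1) (M ++ [(i, a)]) ?_ e h
        have := h3.2
        simpa [msize] using this
      · rw [if_neg h3] at h
        simp at h
    · exact ih (i + 1) M hM e he

end Pool.Agent.Helper83.AO
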